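import Pool.Agent.TH729.BQ.Loc
import Pool.Agent.TH729.BQ.Mat
import Pool.Agent.TH729.BQ.Cyl
import Pool.Agent.W279.Tri.LocComp

/-!
# The integers are not defined by blocks of equations of low degree

Every existential formula over `ℚ` is equivalent to `∃ y, f(z, y) = 0` with one polynomial `f` of
degree at most four, and to a system of equations of degree at most two.  We show that the integers
are not defined in `ℚ` by

* one equation of degree at most three,
* two equations of degree at most two,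
* one equation `a(x₁, …, xₙ) t² + b(x₁, …, xₙ) t + c(x₁, …, xₙ) = 0`, `n ≥ 2`, with linearly
  independent polynomials `a`, `b`, `c` of degree at most two, such that the quadratic form in
  `n + 1` variables obtained from the left-hand side by homogenizing with respect to
  `x₁, …, xₙ` is nondegenerate for some value of `t`.

More generally let `K` be a number field and let `L` be its completion at a place.  A *block* is
the set of the zeros of equations of one of these three kinds in any number of variables (in the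
first two cases singular, reducible and empty varieties are allowed, and so is the block `0 = 0`:
free parameters).  Take the values of arbitrary rational functions at the points with coordinates
in `K` of a product of blocks, restricted to an arbitrary open subset of the `L`-valued points (so
that for a real `L` one can impose strict polynomial inequalities), and take finite unions of such
sets.  A set of this kind has only finitely many points which are isolated in it for the topology
of `L`.  In particular, a set of integers of this kind is finite.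

The main ingredients are the libraries `TH729/CV` (the ideals of the local Zariski closures of the
rational points of an arbitrary cubic hypersurface and of an arbitrary intersection of two quadrics
take only finitely many values, at all places) and `TH729/BQ` (the same for the hypersurfaces of
bidegree `(2,2)` in `ℙⁿ × ℙ¹`).
-/

set_option autoImplicit false

namespace Pool.Agent.Results.MP_28f2cb_lc.CubicEquations

open MvPolynomial Matrix

/-- The set of the zeros `y = (t, x₁, …, xₙ)` of a polynomial `a(x) t² + b(x) t + c(x)`, where `a`,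
`b`, `c` are given by the symmetric matrices `A`, `B`, `C`, evaluated at the vector
`(1, x₁, …, xₙ)`, which is `Function.update y 0 1`.  We require that `n ≥ 2`, that the matrices are
linearly independent and that `t² A + t B + C` is invertible for some `t`. -/
def TwoTwo {K : Type} [Field K] {n : ℕ} (S : Set (Fin (n + 1) → K)) : Prop :=
  2 ≤ n ∧ ∃ A B C : Matrix (Fin (n + 1)) (Fin (n + 1)) K, A.IsSymm ∧ B.IsSymm ∧ C.IsSymm ∧
    LinearIndependent K ![A, B, C] ∧ (∃ t : K, (t ^ 2 • A + t • B + C).det ≠ 0) ∧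
    S = {y | Function.update y 0 1 ⬝ᵥ (y 0 ^ 2 • A + y 0 • B + C) *ᵥ Function.update y 0 1 = 0}

/-- A block: the set of the common zeros of two polynomials of degree at most two, or of the zeros
of one polynomial of degree at most three, or of one polynomial as in `TwoTwo` in some of the
variables. -/
def Block {K : Type} [Field K] {N : ℕ} (S : Set (Fin N → K)) : Prop :=
  (∃ f g : MvPolynomial (Fin N) K,
    ((f.totalDegree ≤ 2 ∧ g.totalDegree ≤ 2) ∨ (f.totalDegree ≤ 3 ∧ g = 0)) ∧
      S = {y | eval y f = 0 ∧ eval y g = 0}) ∨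
  ∃ (n : ℕ) (e : Fin (n + 1) → Fin N) (S₀ : Set (Fin (n + 1) → K)), Function.Injective e ∧
    TwoTwo S₀ ∧ S = {y | (fun i => y (e i)) ∈ S₀}

/-- The values of `(p₁/q, …, p_m/q)` at the points `x = (x₁, …, x_b)` with `x_j ∈ S_j` for all `j`
and `q(x) ≠ 0` whose image in `L^{b × N}` is in `Ω`. -/
def values {K L : Type} [Field K] [Field L] (σ : K →+* L) {b N m : ℕ}
    (S : Fin b → Set (Fin N → K)) (Ω : Set (Fin b × Fin N → L))
    (p : Fin m → MvPolynomial (Fin b × Fin N) K) (q : MvPolynomial (Fin b × Fin N) K) :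
    Set (Fin m → K) :=
  {t | ∃ x : Fin b × Fin N → K, (∀ j, (fun r => x (j, r)) ∈ S j) ∧
    (fun s => σ (x s)) ∈ Ω ∧ eval x q ≠ 0 ∧ ∀ k, t k = eval x (p k) / eval x q}

theorem result :
    -- number fields: finitely many isolated points in every completion
    (∀ (K : Type) [Field K] [NumberField K] (L : Type) [NontriviallyNormedField L]
      [CompleteSpace L] (σ : K →+* L), DenseRange σ →
      ∀ (a b N m : ℕ) (S : Fin a → Fin b → Set (Fin N → K)), (∀ i j, Block (S i j)) →
      ∀ (Ω : Fin a → Set (Fin b × Fin N → L)), (∀ i, IsOpen (Ω i)) →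
      ∀ (p : Fin a → Fin m → MvPolynomial (Fin b × Fin N) K)
        (q : Fin a → MvPolynomial (Fin b × Fin N) K) (D : Set (Fin m → K)),
        D = ⋃ i, values σ (S i) (Ω i) (p i) (q i) →
        {t ∈ D | ∃ U ∈ nhds (fun k => σ (t k)), ∀ s ∈ D, (fun k => σ (s k)) ∈ U →
          s = t}.Finite) ∧
    -- the rational numbers: sets of integers of this kind are finite
    (∀ (a b N : ℕ) (S : Fin a → Fin b → Set (Fin N → ℚ)), (∀ i j, Block (S i j)) →
      ∀ (Ω : Fin a → Set (Fin b × Fin N → ℝ)), (∀ i, IsOpen (Ω i)) →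
      ∀ (p q : Fin a → MvPolynomial (Fin b × Fin N) ℚ) (D : Set ℚ),
        D = {t | ∃ i, ∃ x : Fin b × Fin N → ℚ, (∀ j, (fun r => x (j, r)) ∈ S i j) ∧
          (fun s => ((x s : ℚ) : ℝ)) ∈ Ω i ∧ eval x (q i) ≠ 0 ∧
          t = eval x (p i) / eval x (q i)} →
        D ⊆ Set.range ((↑) : ℤ → ℚ) → D.Finite) ∧
    -- in particular, one equation of degree at most three does not define the integers
    (∀ (n : ℕ) (f : MvPolynomial (Fin (n + 1)) ℚ), f.totalDegree ≤ 3 →
      {t : ℚ | ∃ y : Fin n → ℚ, eval (Fin.cons t y : Fin (n + 1) → ℚ) f = 0} ≠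
        Set.range ((↑) : ℤ → ℚ)) ∧
    -- and two equations of degree at most two do not define the integers
    (∀ (n : ℕ) (f g : MvPolynomial (Fin (n + 1)) ℚ), f.totalDegree ≤ 2 → g.totalDegree ≤ 2 →
      {t : ℚ | ∃ y : Fin n → ℚ, eval (Fin.cons t y : Fin (n + 1) → ℚ) f = 0 ∧
        eval (Fin.cons t y : Fin (n + 1) → ℚ) g = 0} ≠ Set.range ((↑) : ℤ → ℚ)) ∧
    -- and one equation as in `TwoTwo` does not define the integers, as values of any coordinate
    (∀ (n : ℕ) (S : Set (Fin (n + 1) → ℚ)), TwoTwo S → ∀ i,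
      {z : ℚ | ∃ y ∈ S, y i = z} ≠ Set.range ((↑) : ℤ → ℚ)) := by
  have h1 : ∀ (K : Type) [Field K] [NumberField K] (L : Type) [NontriviallyNormedField L]
      [CompleteSpace L] (σ : K →+* L), DenseRange σ →
      ∀ (a b N m : ℕ) (S : Fin a → Fin b → Set (Fin N → K)), (∀ i j, Block (S i j)) →
      ∀ (Ω : Fin a → Set (Fin b × Fin N → L)), (∀ i, IsOpen (Ω i)) →
      ∀ (p : Fin a → Fin m → MvPolynomial (Fin b × Fin N) K)
        (q : Fin a → MvPolynomial (Fin b × Fin N) K) (D : Set (Fin m → K)),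
        D = ⋃ i, values σ (S i) (Ω i) (p i) (q i) →
        {t ∈ D | ∃ U ∈ nhds (fun k => σ (t k)), ∀ s ∈ D, (fun k => σ (s k)) ∈ U →
          s = t}.Finite := by
    intro K _ _ L _ _ σ hσ a b N m S hS Ω hΩ p q D hD
    have : CharZero L := charZero_of_injective_ringHom σ.injective
    have : ProperSpace L := Pool.Agent.W279.Tri.properSpace_of_denseRange σ hσ
    subst hD
    refine Pool.Agent.TH729.CV.isolated_union (fun (t : Fin m → K) k => σ (t k)) _ fun i => ?_
    have hFA : ∀ j, Pool.Agent.TH729.CV.FA σ (S i j) := by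
      intro j
      rcases hS i j with ⟨f, g, hfg, hS'⟩ | ⟨n, e, S₀, he, ⟨hn, A, B, C, hA, hB, hC, hind,
        hdet, hS₀⟩, hS'⟩
      · rw [hS']
        exact Pool.Agent.TH729.CV.FA.block σ hσ hfg
      · rw [hS']
        refine Pool.Agent.TH729.CV.FA.cyl hσ ?_ he
        obtain ⟨𝓑, h𝓑, hbad⟩ := Pool.Agent.TH729.BQ.matFam_bad hA hB hC hdet
        have h3 := Pool.Agent.TH729.BQ.FA_V σ hσ
          (F := Pool.Agent.TH729.BQ.matFam A B C hA hB hC)
          (Pool.Agent.TH729.BQ.matFam_ind hA hB hC hind) hn h𝓑 hbad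
        have h4 : (Pool.Agent.TH729.BQ.matFam A B C hA hB hC).V = S₀ := by
          rw [hS₀]
          ext y
          show (_ = _) ↔ _ = _
          rw [Pool.Agent.TH729.BQ.matFam_val]
          simp only [Matrix.cons_val_zero, Matrix.cons_val_one, Matrix.cons_val_fin_one, mul_one,
            one_pow, one_smul]
        rwa [h4] at h3
    have h2 := Pool.Agent.TH729.CV.FA.prod (σ := σ) (D := fun j => S i j) hFA
    exact Pool.Agent.TH729.CV.vals_isolated h2 (hΩ i) (p i) (q i)
  have h2 : ∀ (a b N : ℕ) (S : Fin a → Fin b → Set (Fin N → ℚ)), (∀ i j, Block (S i j)) →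
      ∀ (Ω : Fin a → Set (Fin b × Fin N → ℝ)), (∀ i, IsOpen (Ω i)) →
      ∀ (p q : Fin a → MvPolynomial (Fin b × Fin N) ℚ) (D : Set ℚ),
        D = {t | ∃ i, ∃ x : Fin b × Fin N → ℚ, (∀ j, (fun r => x (j, r)) ∈ S i j) ∧
          (fun s => ((x s : ℚ) : ℝ)) ∈ Ω i ∧ eval x (q i) ≠ 0 ∧
          t = eval x (p i) / eval x (q i)} →
        D ⊆ Set.range ((↑) : ℤ → ℚ) → D.Finite := by
    intro a b N S hS Ω hΩ p q D hD hDZ
    have h3 := h1 ℚ ℝ (algebraMap ℚ ℝ) Rat.denseRange_cast a b N 1 S hS Ω hΩ
      (fun i _ => p i) q _ rfl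
    have hval : ∀ t : Fin 1 → ℚ, t ∈ (⋃ i, values (algebraMap ℚ ℝ) (S i) (Ω i)
        (fun _ : Fin 1 => p i) (q i)) ↔ t 0 ∈ D := by
      intro t
      rw [hD, Set.mem_iUnion]
      constructor
      · rintro ⟨i, x, hx1, hx2, hx3, hx4⟩
        exact ⟨i, x, hx1, hx2, hx3, hx4 0⟩
      · rintro ⟨i, x, hx1, hx2, hx3, hx4⟩
        refine ⟨i, x, hx1, hx2, hx3, fun k => ?_⟩
        rw [Subsingleton.elim k 0]
        exact hx4
    have h4 : D ⊆ (fun t : Fin 1 → ℚ => t 0) '' {t ∈ (⋃ i, values (algebraMap ℚ ℝ) (S i)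
        (Ω i) (fun _ : Fin 1 => p i) (q i)) | ∃ U ∈ nhds (fun k => algebraMap ℚ ℝ (t k)),
          ∀ s ∈ (⋃ i, values (algebraMap ℚ ℝ) (S i) (Ω i) (fun _ : Fin 1 => p i) (q i)),
            (fun k => algebraMap ℚ ℝ (s k)) ∈ U → s = t} := by
      intro t ht
      refine ⟨fun _ => t, ⟨(hval _).2 ht, {z | z 0 ∈ Metric.ball ((t : ℚ) : ℝ) 1}, ?_, ?_⟩, rfl⟩
      · exact (continuous_apply (0 : Fin 1)).continuousAt.preimage_mem_nhds
          (Metric.ball_mem_nhds _ one_pos)
      · intro s hs hsU
        have hs' := (hval s).1 hs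
        obtain ⟨u, hu⟩ := hDZ ht
        obtain ⟨v, hv⟩ := hDZ hs'
        have h5 : (algebraMap ℚ ℝ (s 0)) ∈ Metric.ball ((t : ℚ) : ℝ) 1 := hsU
        rw [← hv, ← hu] at h5
        simp only [Metric.mem_ball, map_intCast, Rat.cast_intCast, Real.dist_eq] at h5
        have h6 : |v - u| < 1 := by exact_mod_cast h5
        have h7 : v - u = 0 := Int.abs_lt_one_iff.1 h6
        have h8 : v = u := by omega
        funext k
        rw [Subsingleton.elim k 0, ← hv, ← hu, h8]
    exact (h3.image _).subset h4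
  -- one block
  have h3 : ∀ (n : ℕ) (S : Set (Fin (n + 1) → ℚ)), Block S → ∀ i,
      {z : ℚ | ∃ y ∈ S, y i = z} ≠ Set.range ((↑) : ℤ → ℚ) := by
    intro n S hS i heq
    have h4 := h2 1 1 (n + 1) (fun _ _ => S) (fun _ _ => hS)
      (fun _ => Set.univ) (fun _ => isOpen_univ) (fun _ => X (0, i)) (fun _ => 1)
      (Set.range ((↑) : ℤ → ℚ)) ?_ subset_rfl
    · exact (Set.infinite_range_of_injective Int.cast_injective) h4
    · rw [← heq]
      ext t
      constructor
      · rintro ⟨y, hy1, hy2⟩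
        exact ⟨0, fun s => y s.2, fun _ => hy1, Set.mem_univ _, by simp, by simp [hy2]⟩
      · rintro ⟨-, x, hx1, -, -, hx4⟩
        refine ⟨fun r => x (0, r), hx1 0, ?_⟩
        rw [hx4]
        simp
  have h4 : ∀ (n : ℕ) (f g : MvPolynomial (Fin (n + 1)) ℚ),
      ((f.totalDegree ≤ 2 ∧ g.totalDegree ≤ 2) ∨ (f.totalDegree ≤ 3 ∧ g = 0)) →
      {t : ℚ | ∃ y : Fin n → ℚ, eval (Fin.cons t y : Fin (n + 1) → ℚ) f = 0 ∧
        eval (Fin.cons t y : Fin (n + 1) → ℚ) g = 0} ≠ Set.range ((↑) : ℤ → ℚ) := by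
    intro n f g hfg heq
    refine h3 n {y | eval y f = 0 ∧ eval y g = 0} (Or.inl ⟨f, g, hfg, rfl⟩) 0 ?_
    rw [← heq]
    ext t
    constructor
    · rintro ⟨y, ⟨hy1, hy2⟩, rfl⟩
      refine ⟨Fin.tail y, ?_, ?_⟩
      · rw [Fin.cons_self_tail]
        exact hy1
      · rw [Fin.cons_self_tail]
        exact hy2
    · rintro ⟨y, hy1, hy2⟩
      exact ⟨Fin.cons t y, ⟨hy1, hy2⟩, by simp⟩
  refine ⟨h1, h2, fun n f hf heq => ?_, fun n f g hf hg => h4 n f g (Or.inl ⟨hf, hg⟩),
    fun n S hS => h3 n S (Or.inr ⟨n, id, S, Function.injective_id, hS, rfl⟩)⟩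
  refine h4 n f 0 (Or.inr ⟨hf, rfl⟩) ?_
  rw [← heq]
  ext t
  simp

end Pool.Agent.Results.MP_28f2cb_lc.CubicEquations
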