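import Pool.Agent.TH766.HP.Two

/-!
# The integers and families of varieties satisfying the Hasse principle
-/

set_option autoImplicit false

namespace Pool.Agent.Results.MP_28f2cb_lc.HassePrincipleFamilies

open Pool.Agent.TH766.HP

/-- **The integers are not a Boolean combination of projective families satisfying the Hasse
principle and of local conditions.**

Let `Q` be a rich set of primes: it contains, for any finitely many nonconstant integer polynomials,
arbitrarily large primes `p` for which all of them have roots in `ℚ_p`. Rich sets can be arbitrarily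
sparse. Let `Alg Q` be the Boolean algebra of sets of rational numbers generated by
* the sets `{x ∈ ℚ | V_x(ℚ) ≠ ∅}` for all families `V → 𝔸¹` of closed subschemes of projective
  spaces such that every residue class contains a residue class in which the Hasse principle holds
  for all but finitely many fibres `V_x`;
* the sets which are locally constant off a finite set in the topology of one `ℚ_q`;
* the sets given by the conjunction of a real condition and of `p`-adic conditions for all primes
  `p ∉ Q`, locally constant off one finite set.
Then a set in the algebra all of whose elements are integers is nowhere dense in `ℤ` for the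
profinite topology. In particular `ℤ` is not in the algebra. -/
theorem result :
    (∀ Q : Set ℕ, Rich Q →
      (¬ Alg Q (Set.range fun n : ℤ => (n : ℚ))) ∧
      (∀ A : Set ℚ, Alg Q A → A ⊆ Set.range (fun n : ℤ => (n : ℚ)) → ∀ a₁ b₁ : ℤ, 0 < b₁ →
        ∃ a b : ℤ, 0 < b ∧ b₁ ∣ b ∧ b₁ ∣ a - a₁ ∧ ∀ n : ℤ, b ∣ n - a → (n : ℚ) ∉ A)) ∧
    (∀ f : ℕ → ℕ, ∃ q : ℕ → ℕ, StrictMono q ∧ (∀ i, f i ≤ q i) ∧ Rich (Set.range q)) := by
  refine ⟨fun Q hQ => ⟨fun h => ?_, main Q hQ⟩, sparse⟩
  obtain ⟨a, b, hb, -, -, hab⟩ := main Q hQ _ h subset_rfl 0 1 one_pos
  exact hab a (by simp) ⟨a, rfl⟩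

end Pool.Agent.Results.MP_28f2cb_lc.HassePrincipleFamilies
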