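import Pool.Agent.TH255.HC.Loc

/-!
# The integers are existentially definable from any coarse comparison of heights
-/

set_option autoImplicit false

namespace Pool.Agent.Results.MP_28f2cb_lc.HeightComparison

open MvPolynomial

/-- The height of a rational number: the maximum of its denominator and of the absolute value of
its numerator (in lowest terms). -/
def ht (x : ℚ) : ℕ := max x.num.natAbs x.den

/-- Let `a < b` be rational numbers, `C` a natural number and `A`, `δ` real numbers with
`δ < 1 / 2`. There are `n`, a polynomial `p` with integer coefficients in `n + 1` variables and a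
finite set `S` of pairs of variables such that, for every binary relation `R` on `ℚ` which, for
`x` and `y` in the interval `(a, b)`, holds whenever `C ht(x) ≤ ht(y)` and implies
`log ht(x) ≤ log ht(y) + A (1 + log ht(y)) ^ δ`, a rational number `x` is an integer if and only
if `p` has a rational zero `y` with `y 0 = x` and `R (y i) (y k)` for all pairs `(i, k)` in `S`. -/
theorem result (a b : ℚ) (hab : a < b) (C : ℕ) (A δ : ℝ) (hδ : δ < 1 / 2) :
    ∃ (n : ℕ) (p : MvPolynomial (Fin (n + 1)) ℤ) (S : Finset (Fin (n + 1) × Fin (n + 1))),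
      ∀ R : ℚ → ℚ → Prop,
        (∀ x y, x ∈ Set.Ioo a b → y ∈ Set.Ioo a b → C * ht x ≤ ht y → R x y) →
        (∀ x y, x ∈ Set.Ioo a b → y ∈ Set.Ioo a b → R x y →
          Real.log (ht x) ≤ Real.log (ht y) + A * (1 + Real.log (ht y)) ^ δ) →
        ∀ x : ℚ, (∃ z : ℤ, x = z) ↔
          ∃ y : Fin (n + 1) → ℚ, y 0 = x ∧ aeval y p = 0 ∧ ∀ s ∈ S, R (y s.1) (y s.2) :=
  Pool.Agent.TH255.HC.final_loc (fun _ => Pool.Agent.TH255.HC.dh_int) a b hab C A δ hδ

end Pool.Agent.Results.MP_28f2cb_lc.HeightComparison
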