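import Pool.Agent.TH255.QI.All

/-!
# The integers are existentially definable from quasi-integers
-/

set_option autoImplicit false

namespace Pool.Agent.Results.MP_28f2cb_lc.QuasiIntegers

open MvPolynomial

/-- `T` is a set of quasi-integers: it contains the integers, and the denominators of its elements
`x` are at most `exp (A (1 + log max(1, |x|)) ^ δ)`. -/
def Quasi (A δ : ℝ) (T : Set ℚ) : Prop :=
  (∀ z : ℤ, (z : ℚ) ∈ T) ∧
    ∀ x ∈ T, Real.log x.den ≤ A * (1 + Real.log (max 1 |(x : ℝ)|)) ^ δ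

/-- There is one polynomial `F` with integer coefficients such that for EVERY set `T` of
quasi-integers the rational numbers `x` with the property `P` are those for which `F(x, y) = 0`
has a solution `y` with all coordinates in `T`. -/
def Diophantine (A δ : ℝ) (P : ℚ → Prop) : Prop :=
  ∃ (n : ℕ) (F : MvPolynomial (Fin (n + 1)) ℤ), ∀ T : Set ℚ, Quasi A δ T → ∀ x : ℚ,
    P x ↔ ∃ y : Fin n → ℚ, (∀ i, y i ∈ T) ∧ aeval (Fin.cons x y : Fin (n + 1) → ℚ) F = 0

/-- For all real `A` and `δ < 1 / 2` the set of integers, as a set of rational numbers, and every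
recursively enumerable set of natural numbers are Diophantine over every set of quasi-integers,
with a polynomial which does not depend on that set. -/
theorem result (A δ : ℝ) (hδ : δ < 1 / 2) :
    Diophantine A δ (fun x => ∃ z : ℤ, x = z) ∧
      ∀ W : ℕ → Prop, REPred W → Diophantine A δ (fun x => ∃ a : ℕ, x = a ∧ W a) := by
  refine ⟨?_, fun W hW => ?_⟩
  · obtain ⟨n, F, h⟩ := Pool.Agent.TH255.QI.DT.final_all (A := A) (δ := δ)
      (P := fun x => ∃ z : ℤ, x = z) (Pool.Agent.TH255.QI.dt_int hδ)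
    exact ⟨n, F, fun T hT => h T ⟨hT.1, hT.2⟩⟩
  · obtain ⟨n, F, h⟩ := Pool.Agent.TH255.QI.DT.final_all (A := A) (δ := δ)
      (P := fun x => ∃ a : ℕ, x = a ∧ W a) (Pool.Agent.TH255.QI.dt_re hδ hW)
    exact ⟨n, F, fun T hT => h T ⟨hT.1, hT.2⟩⟩

end Pool.Agent.Results.MP_28f2cb_lc.QuasiIntegers
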